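import Pool.Agent.H.MP_929345_co.Vol

/-! Packings of a body and of a smaller body. -/

set_option autoImplicit false

namespace Pool.Agent.H.MP_929345_co.Sw

open Set MeasureTheory Filter
open scoped ENNReal Topology

variable {d : ℕ} {C D S : Set (Fin d → ℝ)}

theorem gauge_le (hC : IsBody C) (h : C ⊆ D) (x : Fin d → ℝ) : gauge D x ≤ gauge C x :=
  gauge_mono hC.absorbent h x

theorem packing_mono (hC : IsBody C) (h : C ⊆ D) (hS : IsPacking D S) : IsPacking C S :=
  fun x hx y hy hne => (hS x hx y hy hne).trans (gauge_le hC h _)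

theorem totSep_mono (h : C ⊆ D) {T U : Set (Fin d → ℝ)} (hTU : T ⊆ U) (hU : TotSep D U) :
    TotSep C T := by
  intro x hx y hy hne
  obtain ⟨f, hf, t, h1, h2, h3⟩ := hU x (hTU hx) y (hTU hy) hne
  exact ⟨f, hf, t, fun w hw => h1 w (h hw), fun w hw => h2 w (h hw),
    fun z hz w hw => h3 z (hTU hz) w (interior_mono h hw)⟩

theorem rhoSep_mono (hC : IsBody C) (hD : IsBody D) (h : C ⊆ D) {ρ : ℝ} (hρ : 1 ≤ ρ)
    (hS : RhoSep ρ D S) : RhoSep ρ C S := by
  intro c hc
  refine totSep_mono h ?_ (hS c hc)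
  rintro x ⟨hx, hx'⟩
  refine ⟨hx, fun w hw => ?_⟩
  have hρ0 : 0 < ρ := by linarith
  have hg : gauge C (x - c) ≤ ρ - 1 := by
    rcases (gauge_nonneg (s := C) (x - c)).lt_or_eq with h0 | h0
    · set g := gauge C (x - c) with hgd
      have hm : g⁻¹ • (x - c) ∈ C := by
        apply hC.gauge_le_one_iff.1
        rw [hC.gauge_smul, abs_of_pos (by positivity), ← hgd, inv_mul_cancel₀ h0.ne']
      obtain ⟨v, hv, hvw⟩ := hx' _ hm
      have e : ρ • v = (1 + g⁻¹) • (x - c) := by
        have : ρ • v = x + g⁻¹ • (x - c) - c := by rw [hvw]; abel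
        rw [this, add_smul, one_smul]; abel
      have h1 := congrArg (gauge C) e
      rw [hC.gauge_smul, hC.gauge_smul, abs_of_pos hρ0, abs_of_pos (by positivity), ← hgd,
        add_mul, one_mul, inv_mul_cancel₀ h0.ne'] at h1
      have h2 := hC.gauge_le_one_iff.2 hv
      nlinarith
    · rw [← h0]; linarith
  have hg' : gauge D (x - c) ≤ ρ - 1 := (gauge_le hC h _).trans hg
  refine ⟨ρ⁻¹ • (x - c + w), ?_, ?_⟩
  · apply hD.gauge_le_one_iff.1
    rw [hD.gauge_smul, abs_of_pos (by positivity), inv_mul_le_iff₀ hρ0, mul_one]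
    have h1 := gauge_add_le hD.convex hD.absorbent (x - c) w
    have h2 := hD.gauge_le_one_iff.2 hw
    linarith
  · rw [smul_smul, mul_inv_cancel₀ hρ0.ne', one_smul]
    abel

theorem win_mono (h : C ⊆ D) (r : ℝ) : Win D r ⊆ Win C r := fun _ hc w hw => hc w (h hw)

/-- The densities of the same centres for two bodies. -/
theorem dens_mono (hC : IsBody C) (hD : IsBody D) (h : C ⊆ D) (hS : IsPacking C S) :
    dens D S * volume C ≤ dens C S * volume D := by
  have hC0 := hC.volume_pos.ne'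
  have hCt := hC.volume_ne_top
  have hD0 := hD.volume_pos.ne'
  have hDt := hD.volume_ne_top
  rw [dens_def, dens_def, mul_comm, mul_comm _ (volume D),
    ← ENNReal.limsup_const_mul_of_ne_top hCt, ← ENNReal.limsup_const_mul_of_ne_top hDt]
  refine limsup_le_limsup ?_
  filter_upwards [eventually_ge_atTop 0] with r hr
  have hfin : (S ∩ Win C r).Finite :=
    finite_inter hC (fun x hx y hy hne => by linarith [hS x hx y hy hne]) hr
  have h1 : (S ∩ Win D r).ncard ≤ (S ∩ Win C r).ncard :=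
    ncard_le_ncard (inter_subset_inter_right S (win_mono h r)) hfin
  have h2 : ((S ∩ Win D r).ncard : ℝ≥0∞) ≤ ((S ∩ Win C r).ncard : ℝ≥0∞) := by exact_mod_cast h1
  rw [← mul_div_assoc, ← mul_div_assoc]
  refine ENNReal.div_le_div_right ?_ _
  calc volume C * (((S ∩ Win D r).ncard : ℝ≥0∞) * volume D)
      = ((S ∩ Win D r).ncard : ℝ≥0∞) * (volume C * volume D) := by ring
    _ ≤ ((S ∩ Win C r).ncard : ℝ≥0∞) * (volume C * volume D) := by gcongr
    _ = volume D * (((S ∩ Win C r).ncard : ℝ≥0∞) * volume C) := by ring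

end Pool.Agent.H.MP_929345_co.Sw
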