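import Pool.Agent.H.MP_929345_co.Pl.KapC

/-! Parallelograms of least area around a planar body. -/

set_option autoImplicit false

namespace Pool.Agent.H.MP_929345_co.Sw

open Set MeasureTheory Filter Pool.Agent.H.MP_929345_co.Pl
open scoped ENNReal Topology

/-- The parallelogram given by two functionals. -/
def Pg (a b : V) : Set V := {x | |ev a x| ≤ 1 ∧ |ev b x| ≤ 1}

/-- `P` has the least area among the parallelograms (with centre `0`) which contain `K`. -/
def LeastPg (K P : Set V) : Prop :=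
  (∃ a b : V, cr a b ≠ 0 ∧ P = Pg a b) ∧ K ⊆ P ∧
    ∀ a b : V, cr a b ≠ 0 → K ⊆ Pg a b → volume P ≤ volume (Pg a b)

theorem pg_preimage (a b : V) :
    Pg a b = (Matrix.toLin' !![a 0, a 1; b 0, b 1] : V →ₗ[ℝ] V) ⁻¹' Metric.closedBall 0 1 := by
  ext x
  rw [mem_preimage, mem_closedBall_zero_iff, pi_norm_le_iff_of_nonneg zero_le_one]
  simp [Pg, ev, Fin.forall_fin_two, Matrix.toLin'_apply, Matrix.mulVec, dotProduct,
    Fin.sum_univ_two, Real.norm_eq_abs]

theorem det_eq (a b : V) :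
    LinearMap.det (Matrix.toLin' !![a 0, a 1; b 0, b 1] : V →ₗ[ℝ] V) = cr a b := by
  rw [LinearMap.det_toLin', Matrix.det_fin_two_of]
  simp [cr]

/-- The area. -/
theorem vol_pg {a b : V} (hab : cr a b ≠ 0) :
    volume (Pg a b) = ENNReal.ofReal (4 / |cr a b|) := by
  have hd : LinearMap.det (Matrix.toLin' !![a 0, a 1; b 0, b 1] : V →ₗ[ℝ] V) ≠ 0 := by
    rw [det_eq]; exact hab
  rw [pg_preimage, Measure.addHaar_preimage_linearMap volume hd, det_eq,
    Real.volume_pi_closedBall _ zero_le_one, ← ENNReal.ofReal_mul (abs_nonneg _)]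
  congr 1
  rw [abs_inv, Fintype.card_fin]
  ring

theorem pg_isBody {a b : V} (hab : cr a b ≠ 0) : IsBody (Pg a b) := by
  have hcl : IsClosed (Pg a b) := by
    have h1 : IsClosed {x : V | |ev a x| ≤ 1} :=
      isClosed_le (continuous_ev a).abs continuous_const
    have h2 : IsClosed {x : V | |ev b x| ≤ 1} :=
      isClosed_le (continuous_ev b).abs continuous_const
    exact h1.inter h2
  have hpos : 0 < |cr a b| := abs_pos.2 hab
  have hsub : Pg a b ⊆ Metric.closedBall 0 ((|b 1| + |a 1| + (|a 0| + |b 0|)) / |cr a b|) := by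
    intro x hx
    have ha := hx.1
    have hb := hx.2
    rw [mem_closedBall_zero_iff, pi_norm_le_iff_of_nonneg (by positivity)]
    have e0 : cr a b * x 0 = b 1 * ev a x - a 1 * ev b x := by simp [cr, ev]; ring
    have e1 : cr a b * x 1 = a 0 * ev b x - b 0 * ev a x := by simp [cr, ev]; ring
    have k0 : |cr a b| * |x 0| ≤ |b 1| + |a 1| := by
      rw [← abs_mul, e0]
      refine (abs_sub _ _).trans ?_
      rw [abs_mul, abs_mul]
      exact add_le_add (mul_le_of_le_one_right (abs_nonneg _) ha)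
        (mul_le_of_le_one_right (abs_nonneg _) hb)
    have k1 : |cr a b| * |x 1| ≤ |a 0| + |b 0| := by
      rw [← abs_mul, e1]
      refine (abs_sub _ _).trans ?_
      rw [abs_mul, abs_mul]
      exact add_le_add (mul_le_of_le_one_right (abs_nonneg _) hb)
        (mul_le_of_le_one_right (abs_nonneg _) ha)
    intro i
    rw [Real.norm_eq_abs, le_div_iff₀ hpos]
    fin_cases i
    · simp only [Fin.zero_eta]
      nlinarith [abs_nonneg (a 0), abs_nonneg (b 0)]
    · simp only [Fin.mk_one]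
      nlinarith [abs_nonneg (a 1), abs_nonneg (b 1)]
  refine ⟨?_, ?_, ?_, ?_⟩
  · rw [pg_preimage]
    exact (convex_closedBall _ _).linear_preimage _
  · exact Metric.isCompact_of_isClosed_isBounded hcl (Metric.isBounded_closedBall.subset hsub)
  · refine ⟨0, ?_⟩
    have hop : IsOpen {x : V | |ev a x| < 1 ∧ |ev b x| < 1} :=
      (isOpen_lt (continuous_ev a).abs continuous_const).inter
        (isOpen_lt (continuous_ev b).abs continuous_const)
    have hs : {x : V | |ev a x| < 1 ∧ |ev b x| < 1} ⊆ Pg a b := by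
      rintro x ⟨h1, h2⟩
      exact ⟨h1.le, h2.le⟩
    refine interior_maximal hs hop ?_
    simp [ev_zero]
  · intro x hx
    refine ⟨?_, ?_⟩
    · rw [ev_neg, abs_neg]; exact hx.1
    · rw [ev_neg, abs_neg]; exact hx.2

/-- The parallelogram of a parallelogram. -/
theorem par_pg {a b : V} (hab : cr a b ≠ 0) : Par (Pg a b) a b = Pg a b := by
  have hB := pg_isBody hab
  apply Subset.antisymm _ (C_subset_Par hB a b)
  intro x hx
  have h1 : hs (Pg a b) a ≤ 1 := hs_le ⟨0, zero_mem hB⟩ fun y hy => (abs_le.1 hy.1).2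
  have h2 : hs (Pg a b) b ≤ 1 := hs_le ⟨0, zero_mem hB⟩ fun y hy => (abs_le.1 hy.2).2
  exact ⟨hx.1.trans h1, hx.2.trans h2⟩

theorem par_eq_pg {K : Set V} (hK : IsBody K) {a b : V} (hab : cr a b ≠ 0) :
    Par K a b = Pg ((hs K a)⁻¹ • a) ((hs K b)⁻¹ • b) := by
  have ha := hs_pos hK (cr_ne_zero_left hab)
  have hb := hs_pos hK (cr_ne_zero_right hab)
  ext x
  simp only [Par, Pg, mem_ofPred_eq, ev_smul_left, abs_mul, abs_inv, abs_of_pos ha, abs_of_pos hb,
    inv_mul_le_iff₀ ha, inv_mul_le_iff₀ hb, mul_one]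

/-- The area of a least parallelogram is at most `beta`. -/
theorem least_le_beta {K P : Set V} (hK : IsBody K) (hP : LeastPg K P) : vl P ≤ beta K := by
  apply le_csInf
  · exact ⟨vl (Par K ![1, 0] ![0, 1]), ![1, 0], ![0, 1], by simp [cr], rfl⟩
  · rintro t ⟨a, b, hab, rfl⟩
    have ha := hs_pos hK (cr_ne_zero_left hab)
    have hb := hs_pos hK (cr_ne_zero_right hab)
    have hab' : cr ((hs K a)⁻¹ • a) ((hs K b)⁻¹ • b) ≠ 0 := by
      rw [cr_smul_left, cr_smul_right]
      positivity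
    have h1 := hP.2.2 _ _ hab' (by rw [← par_eq_pg hK hab]; exact C_subset_Par hK a b)
    rw [← par_eq_pg hK hab] at h1
    exact ENNReal.toReal_mono (isCompact_Par hK hab).measure_lt_top.ne h1

/-- Least parallelograms exist. -/
theorem exists_least {K : Set V} (hK : IsBody K) : ∃ P, LeastPg K P := by
  set Q : Set V := {a | ∀ x ∈ K, ev a x ≤ 1} with hQ
  have hcont : ∀ x : V, Continuous fun a : V => ev a x := fun x => by
    unfold ev
    fun_prop
  have hQc : IsClosed Q := by
    have : Q = ⋂ x ∈ K, {a : V | ev a x ≤ 1} := by ext a; simp [hQ]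
    rw [this]
    exact isClosed_biInter fun x _ => isClosed_le (hcont x) continuous_const
  obtain ⟨r, hr, hrK⟩ := exists_ball hK
  have hQb : Q ⊆ Metric.closedBall 0 (1 / r) := by
    intro a ha
    rw [mem_closedBall_zero_iff, pi_norm_le_iff_of_nonneg (by positivity)]
    intro i
    have h1 : ∀ s : ℝ, |s| ≤ r → (Pi.single i s : V) ∈ K := by
      intro s hs
      apply hrK
      rw [mem_closedBall_zero_iff, Pi.norm_single]
      exact hs
    have h2 : ∀ s : ℝ, ev a (Pi.single i s : V) = a i * s := by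
      intro s
      fin_cases i <;> simp [ev]
    have h3 := ha _ (h1 r (by rw [abs_of_pos hr]))
    have h4 := ha _ (h1 (-r) (by rw [abs_neg, abs_of_pos hr]))
    rw [h2] at h3 h4
    rw [Real.norm_eq_abs, abs_le, ← neg_div, div_le_iff₀ hr, le_div_iff₀ hr]
    constructor <;> linarith
  have hQk : IsCompact Q :=
    Metric.isCompact_of_isClosed_isBounded hQc (Metric.isBounded_closedBall.subset hQb)
  have hcr : Continuous fun p : V × V => |cr p.1 p.2| := by
    unfold cr
    fun_prop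
  obtain ⟨R, hR, hRK⟩ := exists_radius hK
  have hsmall : ∀ i : Fin 2, (Pi.single i (1 / R) : V) ∈ Q := by
    intro i x hx
    have h1 : ‖x‖ ≤ R := by simpa using hRK hx
    have h2 := norm_le_pi_norm x i
    rw [Real.norm_eq_abs] at h2
    have h3 : ev (Pi.single i (1 / R) : V) x = 1 / R * x i := by
      fin_cases i <;> simp [ev]
    rw [h3, one_div, inv_mul_le_iff₀ hR, mul_one]
    exact (le_abs_self _).trans (h2.trans h1)
  obtain ⟨p, hp, hmax⟩ := (hQk.prod hQk).exists_isMaxOn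
    ⟨(Pi.single 0 (1 / R), Pi.single 1 (1 / R)), hsmall 0, hsmall 1⟩ hcr.continuousOn
  have hp0 : 0 < |cr p.1 p.2| := by
    have h1 := hmax (show (Pi.single 0 (1 / R), Pi.single 1 (1 / R)) ∈ Q ×ˢ Q from
      ⟨hsmall 0, hsmall 1⟩)
    have h2 : (0 : ℝ) < |cr (Pi.single 0 (1 / R) : V) (Pi.single 1 (1 / R) : V)| := by
      have : cr (Pi.single 0 (1 / R) : V) (Pi.single 1 (1 / R) : V) = 1 / R * (1 / R) := by
        simp [cr]
      rw [this]
      positivity
    exact lt_of_lt_of_le h2 h1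
  have hpc : cr p.1 p.2 ≠ 0 := abs_pos.1 hp0
  have hmemQ : ∀ a b : V, K ⊆ Pg a b → a ∈ Q ∧ b ∈ Q := fun a b h =>
    ⟨fun x hx => (abs_le.1 (h hx).1).2, fun x hx => (abs_le.1 (h hx).2).2⟩
  have habs : ∀ a ∈ Q, ∀ x ∈ K, |ev a x| ≤ 1 := by
    intro a ha x hx
    rw [abs_le]
    have := ha (-x) (hK.symm x hx)
    rw [ev_neg] at this
    exact ⟨by linarith, ha x hx⟩
  refine ⟨Pg p.1 p.2, ⟨p.1, p.2, hpc, rfl⟩, fun x hx => ⟨habs _ hp.1 x hx, habs _ hp.2 x hx⟩, ?_⟩
  intro a b hab h
  rw [vol_pg hpc, vol_pg hab]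
  apply ENNReal.ofReal_le_ofReal
  have h1 : |cr a b| ≤ |cr p.1 p.2| := hmax (show (a, b) ∈ Q ×ˢ Q from hmemQ a b h)
  exact div_le_div_of_nonneg_left (by norm_num) (abs_pos.2 hab) h1

end Pool.Agent.H.MP_929345_co.Sw
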