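import Pool.Agent.H.MP_929345_co.Pl.CyG
import Pool.Agent.H.MP_929345_co.Sw.Mon
import Pool.Agent.H.MP_929345_co.Sw.Par

/-! Bodies between a cylinder and a parallelepiped. -/

set_option autoImplicit false

namespace Pool.Agent.H.MP_929345_co.Sw

open Set MeasureTheory Filter Pool.Agent.H.MP_929345_co.Pl
open scoped ENNReal Topology

variable {d n : ℕ} (A : (Fin d → ℝ) ≃L[ℝ] V × (Fin n → ℝ)) {K : Set V}

theorem sw_upper (hK : IsBody K) :
    ∃ ρ0 : ℝ, 1 ≤ ρ0 ∧ ∀ P : Set V, LeastPg K P → ∀ ρ ≥ ρ0, ∀ C : Set (Fin d → ℝ), IsBody C →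
      Cyl A K ⊆ C → ∀ S : Set (Fin d → ℝ), IsPacking C S → RhoSep ρ C S →
        dens C S ≤ volume C / volume (Cyl A P) := by
  obtain ⟨ρ0, h0, hup⟩ := cyl_upper A hK
  refine ⟨ρ0, h0, fun P hP ρ hρ C hC hKC S hS hS' => ?_⟩
  have hB := cyl_isBody A hK
  have hρ1 : 1 ≤ ρ := h0.trans hρ
  obtain ⟨a, b, hab, rfl⟩ := hP.1
  have hPb := pg_isBody hab
  obtain ⟨κ, hκ, hvol⟩ := vol_cyl A
  have hvK : volume (Cyl A K) = ENNReal.ofReal (κ * vl K) :=
    hvol _ hK.compact.measurableSet hK.compact.measure_lt_top.ne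
  have hvP : volume (Cyl A (Pg a b)) = ENNReal.ofReal (κ * vl (Pg a b)) :=
    hvol _ hPb.compact.measurableSet hPb.compact.measure_lt_top.ne
  have hK0 := vl_pos hK
  have hP0 := vl_pos hPb
  have h1 := hup ρ hρ S (packing_mono hB hKC hS) (rhoSep_mono hB hC hKC hρ1 hS')
  have h2 : dens (Cyl A K) S ≤ ENNReal.ofReal (vl K / vl (Pg a b)) := h1.trans
    (ENNReal.ofReal_le_ofReal (div_le_div_of_nonneg_left hK0.le hP0 (least_le_beta hK hP)))
  have h3 := dens_mono hB hC hKC (packing_mono hB hKC hS)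
  have h4 : dens C S * ENNReal.ofReal (κ * vl K) ≤
      ENNReal.ofReal (vl K / vl (Pg a b)) * volume C := by
    rw [← hvK]
    exact h3.trans (by gcongr)
  rw [hvP, ENNReal.le_div_iff_mul_le (Or.inl (ENNReal.ofReal_pos.2 (by positivity)).ne')
    (Or.inl ENNReal.ofReal_ne_top)]
  have h5 : ENNReal.ofReal (κ * vl (Pg a b)) =
      ENNReal.ofReal (κ * vl K) * ENNReal.ofReal (vl (Pg a b) / vl K) := by
    rw [← ENNReal.ofReal_mul (by positivity)]
    congr 1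
    field_simp
  have h6 : ENNReal.ofReal (vl K / vl (Pg a b)) * ENNReal.ofReal (vl (Pg a b) / vl K) = 1 := by
    rw [← ENNReal.ofReal_mul (by positivity), ← ENNReal.ofReal_one]
    congr 1
    field_simp
  calc dens C S * ENNReal.ofReal (κ * vl (Pg a b))
      = dens C S * ENNReal.ofReal (κ * vl K) * ENNReal.ofReal (vl (Pg a b) / vl K) := by
        rw [h5, mul_assoc]
    _ ≤ ENNReal.ofReal (vl K / vl (Pg a b)) * volume C *
        ENNReal.ofReal (vl (Pg a b) / vl K) := by gcongr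
    _ = volume C * (ENNReal.ofReal (vl K / vl (Pg a b)) *
        ENNReal.ofReal (vl (Pg a b) / vl K)) := by ring
    _ = volume C := by rw [h6, mul_one]

theorem sw_lower {a b : V} (hab : cr a b ≠ 0) {C : Set (Fin d → ℝ)} (hC : IsBody C)
    (hCP : C ⊆ Cyl A (Pg a b)) : ∃ X : Set (Fin d → ℝ), IsPacking C X ∧ TotSep C X ∧
      volume C / volume (Cyl A (Pg a b)) ≤ dens C X := by
  have hPb := pg_isBody hab
  have hB := cyl_isBody A hPb
  obtain ⟨X, h1, h2, h3⟩ := cyl_lattice A hPb hab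
  have hX := packing_mono hC hCP h1
  refine ⟨X, hX, totSep_mono hCP subset_rfl h2, ?_⟩
  rw [par_pg hab, div_self (vl_pos hPb).ne', ENNReal.ofReal_one] at h3
  rw [ENNReal.div_le_iff_le_mul (Or.inl hB.volume_pos.ne') (Or.inl hB.volume_ne_top)]
  calc volume C = 1 * volume C := (one_mul _).symm
    _ ≤ dens (Cyl A (Pg a b)) X * volume C := by gcongr
    _ ≤ _ := dens_mono hC hB hCP hX

/-- The theorem for the bodies between a cylinder and its least parallelepiped. -/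
theorem sandwich (hK : IsBody K) :
    ∃ ρ0 : ℝ, 1 ≤ ρ0 ∧ ∀ P : Set V, LeastPg K P → ∀ C : Set (Fin d → ℝ), IsBody C →
      Cyl A K ⊆ C → C ⊆ Cyl A P →
      (⨆ S ∈ {S : Set (Fin d → ℝ) | IsPacking C S ∧ TotSep C S}, dens C S) =
          volume C / volume (Cyl A P) ∧
        ∀ ρ ≥ ρ0, (⨆ S ∈ {S : Set (Fin d → ℝ) | IsPacking C S ∧ RhoSep ρ C S}, dens C S) =
          volume C / volume (Cyl A P) := by
  obtain ⟨ρ0, h0, hup'⟩ := sw_upper A hK
  refine ⟨ρ0, h0, fun P hP C hC hKC hCP => ?_⟩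
  have hup := hup' P hP
  obtain ⟨a, b, hab, rfl⟩ := hP.1
  obtain ⟨X, h1, h2, h3⟩ := sw_lower A hab hC hCP
  refine ⟨le_antisymm ?_ ?_, fun ρ hρ => le_antisymm ?_ ?_⟩
  · exact iSup₂_le fun S hS => hup ρ0 le_rfl C hC hKC S hS.1 (rhoSep_of_totSep' ρ0 hS.2)
  · exact h3.trans (le_biSup (dens C) (show X ∈ {S : Set (Fin d → ℝ) |
      IsPacking C S ∧ TotSep C S} from ⟨h1, h2⟩))
  · exact iSup₂_le fun S hS => hup ρ hρ C hC hKC S hS.1 hS.2
  · exact h3.trans (le_biSup (dens C) (show X ∈ {S : Set (Fin d → ℝ) |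
      IsPacking C S ∧ RhoSep ρ C S} from ⟨h1, rhoSep_of_totSep' ρ h2⟩))

end Pool.Agent.H.MP_929345_co.Sw
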